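import Mathlib

set_option autoImplicit false

namespace Pool.Agent.Results.MP_9038fc_co.GapSeven

/-- `T` is the arc relation of a tournament on `V`: there are no loops, and for any two distinct
vertices exactly one of the two arcs between them is present. -/
def IsTournament {V : Type*} (T : V → V → Prop) : Prop :=
  (∀ u, ¬ T u u) ∧ ∀ u v, u ≠ v → (T u v ∧ ¬ T v u) ∨ (¬ T u v ∧ T v u)

/-- `A` is the arc set of a Hamiltonian circuit `v 0 → v 1 → ... → v (n-1) → v 0` of `T`
(indices modulo `n`), passing through every vertex exactly once. -/
def IsHamCircuit {n : ℕ} (T : Fin n → Fin n → Prop) (A : Set (Fin n × Fin n)) : Prop :=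
  ∃ v : ZMod n → Fin n, Function.Bijective v ∧ (∀ i, T (v i) (v (i + 1))) ∧
    A = Set.range fun i => (v i, v (i + 1))

/-- The number of distinct Hamiltonian circuits (circuits with the same arc set are the same). -/
noncomputable def numHam {n : ℕ} (T : Fin n → Fin n → Prop) : ℕ :=
  {A : Set (Fin n × Fin n) | IsHamCircuit T A}.ncard

/-- `h_o(n)`: the largest number of Hamiltonian circuits of an `n`-tournament. -/
noncomputable def maxHam (n : ℕ) : ℕ :=
  sSup {h : ℕ | ∃ T : Fin n → Fin n → Prop, IsTournament T ∧ numHam T = h}

/-! ### Reduction to a count over a list -/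

/-- rooted Hamiltonian circuits -/
def Rooted (T : Fin 7 → Fin 7 → Prop) : Set (Fin 7 → Fin 7) :=
  {v | v 0 = 0 ∧ Function.Bijective v ∧ ∀ i, T (v i) (v (i + 1))}

lemma numHam_eq_rooted (T : Fin 7 → Fin 7 → Prop) : numHam T = (Rooted T).ncard := by
  have h : {A : Set (Fin 7 × Fin 7) | IsHamCircuit T A} =
      (fun v : Fin 7 → Fin 7 => Set.range fun i => (v i, v (i + 1))) '' Rooted T := by
    ext A
    constructor
    · rintro ⟨(v : Fin 7 → Fin 7), hv, (hT : ∀ i : Fin 7, T (v i) (v (i + 1))), rfl⟩
      obtain ⟨(j : Fin 7), hj⟩ := hv.2 0
      refine ⟨fun i => v (i + j), ⟨?_, ?_, ?_⟩, ?_⟩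
      · show v (0 + j) = 0
        rw [zero_add, hj]
      · exact hv.comp (Equiv.addRight j).bijective
      · intro i
        have := hT (i + j)
        rw [add_right_comm i j 1] at this
        exact this
      · show (Set.range fun i : Fin 7 => (v (i + j), v (i + 1 + j))) =
          Set.range fun i : Fin 7 => (v i, v (i + 1))
        ext ⟨x, y⟩
        simp only [Set.mem_range, Prod.mk.injEq]
        constructor
        · rintro ⟨i, hi1, hi2⟩
          exact ⟨i + j, hi1, by rw [add_right_comm i j 1]; exact hi2⟩
        · rintro ⟨i, hi1, hi2⟩
          refine ⟨i - j, ?_, ?_⟩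
          · rw [sub_add_cancel]; exact hi1
          · rw [add_right_comm, sub_add_cancel]; exact hi2
    · rintro ⟨v, ⟨_, hv, hT⟩, rfl⟩
      exact ⟨v, hv, hT, rfl⟩
  unfold numHam
  rw [h]
  apply Set.InjOn.ncard_image
  rintro v ⟨hv0, hv, _⟩ w ⟨hw0, hw, _⟩ hvw
  simp only at hvw
  have key : ∀ k : ℕ, ∀ i : Fin 7, i.val = k → v i = w i := by
    intro k
    induction k with
    | zero =>
      intro i hi
      have : i = 0 := Fin.ext hi
      rw [this, hv0, hw0]
    | succ k ih =>
      intro i hi
      have hk : k < 7 := by omega
      have h1 : (⟨k, hk⟩ : Fin 7) + 1 = i := by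
        apply Fin.ext
        rw [Fin.val_add]
        simp only [hi]
        have : i.val < 7 := i.isLt
        show (k + 1) % 7 = k + 1
        omega
      have h2 := ih ⟨k, hk⟩ rfl
      have h3 : (v ⟨k, hk⟩, v (⟨k, hk⟩ + 1)) ∈ Set.range fun i => (w i, w (i + 1)) := by
        rw [← hvw]; exact ⟨_, rfl⟩
      obtain ⟨j, hj⟩ := h3
      simp only [Prod.mk.injEq] at hj
      have h4 : j = ⟨k, hk⟩ := hw.1 (by rw [hj.1, h2])
      rw [h4] at hj
      rw [← h1, hj.2]
  funext i
  exact key i.val i rfl

lemma numHam_relabel (T : Fin 7 → Fin 7 → Prop) (e : Fin 7 ≃ Fin 7) :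
    numHam (fun a b => T (e a) (e b)) = numHam T := by
  have h : {A : Set (Fin 7 × Fin 7) | IsHamCircuit T A} =
      (fun A => (Prod.map e e) '' A) ''
        {A : Set (Fin 7 × Fin 7) | IsHamCircuit (fun a b => T (e a) (e b)) A} := by
    ext A
    constructor
    · rintro ⟨v, hv, hT, rfl⟩
      refine ⟨Set.range fun i => (e.symm (v i), e.symm (v (i + 1))),
        ⟨fun i => e.symm (v i), e.symm.bijective.comp hv, ?_, rfl⟩, ?_⟩
      · intro i; simpa using hT i
      · simp only
        rw [← Set.range_comp]
        congr 1
        funext i
        simp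
    · rintro ⟨_, ⟨v, hv, hT, rfl⟩, rfl⟩
      refine ⟨fun i => e (v i), e.bijective.comp hv, hT, ?_⟩
      simp only
      rw [← Set.range_comp]
      rfl
  unfold numHam
  rw [h]
  symm
  apply Set.ncard_image_of_injective
  exact Set.image_injective.mpr (Prod.map_injective.mpr ⟨e.injective, e.injective⟩)

/-- arc code of a path starting at `a`, through the list, then back to `0`. -/
def codeFrom : Fin 7 → List (Fin 7) → ℕ
  | a, [] => 2 ^ (7 * a.val)
  | a, b :: l => 2 ^ (7 * a.val + b.val) ||| codeFrom b l

def okFrom (T : Fin 7 → Fin 7 → Prop) : Fin 7 → List (Fin 7) → Prop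
  | a, [] => T a 0
  | a, b :: l => T a b ∧ okFrom T b l

/-- all arcs in the code `c` are arcs of `T` -/
def Ok (T : Fin 7 → Fin 7 → Prop) (c : ℕ) : Prop :=
  ∀ a b : Fin 7, c.testBit (7 * a.val + b.val) = true → T a b

lemma ok_codeFrom (T : Fin 7 → Fin 7 → Prop) (a : Fin 7) (l : List (Fin 7)) :
    Ok T (codeFrom a l) ↔ okFrom T a l := by
  induction l generalizing a with
  | nil =>
    simp only [Ok, codeFrom, okFrom, Nat.testBit_two_pow, decide_eq_true_eq]
    constructor
    · intro h; exact h a 0 (by simp)
    · intro h x y hxy
      have hx := x.isLt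
      have hy := y.isLt
      have e1 : a = x := Fin.ext (by omega)
      have e2 : y = 0 := Fin.ext (by
        show y.val = 0
        omega)
      rw [← e1, e2]; exact h
  | cons b l ih =>
    have ih' := ih b
    simp only [Ok, codeFrom, okFrom, Nat.testBit_or, Nat.testBit_two_pow, Bool.or_eq_true,
      decide_eq_true_eq] at ih' ⊢
    rw [← ih']
    constructor
    · intro h
      exact ⟨h a b (Or.inl rfl), fun x y hxy => h x y (Or.inr hxy)⟩
    · rintro ⟨h1, h2⟩ x y (hxy | hxy)
      · have hx := x.isLt
        have hy := y.isLt
        have hb := b.isLt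
        have e1 : a = x := Fin.ext (by omega)
        have e2 : b = y := Fin.ext (by omega)
        rw [← e1, ← e2]; exact h1
      · exact h2 x y hxy

/-- the `720` orderings of the vertices `1, ..., 6`. -/
def perms : List (List (Fin 7)) := List.permutations' [1, 2, 3, 4, 5, 6]

/-- the `720` arc codes of the circuits of the complete digraph. -/
def codes : List ℕ := perms.map (codeFrom 0)

open Classical in
lemma numHam_eq_length (T : Fin 7 → Fin 7 → Prop) :
    numHam T = (codes.filter fun c => decide (Ok T c)).length := by
  rw [numHam_eq_rooted]
  have h0 : (codes.filter fun c => decide (Ok T c)).length =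
      (perms.filter fun l => decide (okFrom T 0 l)).length := by
    unfold codes
    rw [List.filter_map, List.length_map]
    congr 2
    funext l
    simp only [Function.comp]
    congr 1
    exact propext (ok_codeFrom T 0 l)
  rw [h0]
  have hnd : perms.Nodup := by
    unfold perms
    rw [← (List.permutations_perm_permutations' _).nodup_iff]
    exact List.nodup_permutations _ (by decide)
  rw [← List.toFinset_card_of_nodup (hnd.filter _), ← Set.ncard_coe_finset]
  let F : (Fin 7 → Fin 7) → List (Fin 7) := fun v => [v 1, v 2, v 3, v 4, v 5, v 6]
  have himg : F '' Rooted T =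
      ((perms.filter fun l => decide (okFrom T 0 l)).toFinset : Set (List (Fin 7))) := by
    ext l
    simp only [Set.mem_image, List.coe_toFinset, Set.mem_ofPred_eq, List.mem_filter,
      decide_eq_true_eq]
    constructor
    · rintro ⟨v, ⟨hv0, hv, hT⟩, rfl⟩
      constructor
      · unfold perms
        rw [List.mem_permutations']
        have h1 : List.ofFn v = 0 :: F v := by
          simp [List.ofFn_succ, F, hv0]
        have h2 : (List.ofFn v).Perm [0, 1, 2, 3, 4, 5, 6] := by
          rw [List.perm_ext_iff_of_nodup (List.nodup_ofFn.mpr hv.1) (by decide)]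
          intro a
          rw [List.mem_ofFn]
          constructor
          · intro _; fin_cases a <;> simp
          · intro _; exact hv.2 a
        rw [h1] at h2
        exact (List.perm_cons 0).mp h2
      · simp only [F, okFrom]
        refine ⟨?_, ?_, ?_, ?_, ?_, ?_, ?_⟩
        · have := hT 0; rwa [hv0] at this
        · exact hT 1
        · exact hT 2
        · exact hT 3
        · exact hT 4
        · exact hT 5
        · have := hT 6
          have h6 : (6 : Fin 7) + 1 = 0 := by decide
          rw [h6, hv0] at this
          exact this
    · rintro ⟨hl, hok⟩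
      unfold perms at hl
      rw [List.mem_permutations'] at hl
      have hlen := hl.length_eq
      match l, hlen, hl, hok with
      | [a, b, c, d, e, f], _, hl, hok =>
        simp only [okFrom] at hok
        have hnodup : (0 :: [a, b, c, d, e, f]).Nodup := by
          have := (List.perm_cons 0).mpr hl
          rw [this.nodup_iff]; decide
        have hinj : Function.Injective (![0, a, b, c, d, e, f] : Fin 7 → Fin 7) := by
          rw [← List.nodup_ofFn]
          simpa [List.ofFn_succ] using hnodup
        refine ⟨![0, a, b, c, d, e, f], ⟨rfl, Finite.injective_iff_bijective.mp hinj, ?_⟩, rfl⟩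
        intro i
        obtain ⟨t0, t1, t2, t3, t4, t5, t6⟩ := hok
        fin_cases i
        · exact t0
        · exact t1
        · exact t2
        · exact t3
        · exact t4
        · exact t5
        · exact t6
  rw [← himg]
  symm
  apply Set.InjOn.ncard_image
  rintro v ⟨hv0, _, _⟩ w ⟨hw0, _, _⟩ hvw
  simp only [F, List.cons.injEq, and_true] at hvw
  obtain ⟨h1, h2, h3, h4, h5, h6⟩ := hvw
  funext i
  fin_cases i
  · exact hv0.trans hw0.symm
  · exact h1
  · exact h2
  · exact h3
  · exact h4
  · exact h5
  · exact h6

/-! ### The decision tree -/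

/-- Decide the orientations of the pairs in the list one after the other, keeping only the circuits
that are consistent with the decisions. `true` means: no choice of orientations leads to exactly
`h` circuits. -/
def check (h : ℕ) : List (Fin 7 × Fin 7) → List ℕ → Bool
  | [], L => !(Nat.beq L.length h)
  | e :: es, L => Nat.blt L.length h ||
      (check h es (L.filter fun c => !c.testBit (7 * e.1.val + e.2.val)) &&
        check h es (L.filter fun c => !c.testBit (7 * e.2.val + e.1.val)))

open Classical in
lemma check_sound (T : Fin 7 → Fin 7 → Prop) (h : ℕ) (es : List (Fin 7 × Fin 7)) (L : List ℕ)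
    (hc : check h es L = true)
    (hT : ∀ e ∈ es, (T e.1 e.2 ∧ ¬ T e.2 e.1) ∨ (¬ T e.1 e.2 ∧ T e.2 e.1))
    (hL : ∀ c ∈ L, ∀ a b : Fin 7, c.testBit (7 * a.val + b.val) = true →
      T a b ∨ (a, b) ∈ es ∨ (b, a) ∈ es) :
    (L.filter fun c => decide (Ok T c)).length ≠ h := by
  induction es generalizing L with
  | nil =>
    have h1 : (L.filter fun c => decide (Ok T c)) = L := by
      rw [List.filter_eq_self]
      intro c hcL
      simp only [decide_eq_true_eq]
      intro a b hab
      rcases hL c hcL a b hab with h | h | h
      · exact h
      · simp at h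
      · simp at h
    rw [h1]
    simp only [check, Bool.not_eq_true'] at hc
    intro h2
    rw [h2] at hc
    simp at hc
  | cons e es ih =>
    simp only [check, Bool.or_eq_true, Bool.and_eq_true] at hc
    have hT' : ∀ e ∈ es, (T e.1 e.2 ∧ ¬ T e.2 e.1) ∨ (¬ T e.1 e.2 ∧ T e.2 e.1) :=
      fun e' he' => hT e' (List.mem_cons_of_mem _ he')
    rcases hc with hc | ⟨hc1, hc2⟩
    · have h1 : L.length < h := by simpa [Nat.blt_eq] using hc
      have h2 : (L.filter fun c => decide (Ok T c)).length ≤ L.length := List.length_filter_le _ _
      omega
    · rcases hT e List.mem_cons_self with ⟨h1, h2⟩ | ⟨h1, h2⟩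
      · -- the arc `e.2 → e.1` is absent
        have h3 := ih (L.filter fun c => !c.testBit (7 * e.2.val + e.1.val)) hc2 hT' (by
          intro c hcL a b hab
          rw [List.mem_filter] at hcL
          rcases hL c hcL.1 a b hab with h | h | h
          · exact Or.inl h
          · rw [List.mem_cons] at h
            rcases h with h | h
            · left; rw [← h] at h1; exact h1
            · exact Or.inr (Or.inl h)
          · rw [List.mem_cons] at h
            rcases h with h | h
            · exfalso
              have h5 := hcL.2
              rw [← h] at h5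
              simp only at h5
              rw [hab] at h5
              simp at h5
            · exact Or.inr (Or.inr h))
        have h4 : ((L.filter fun c => !c.testBit (7 * e.2.val + e.1.val)).filter
            fun c => decide (Ok T c)) = L.filter fun c => decide (Ok T c) := by
          rw [List.filter_filter]
          apply List.filter_congr
          intro c _
          by_cases hok : Ok T c
          · have : c.testBit (7 * e.2.val + e.1.val) = false := by
              by_contra hne
              exact h2 (hok _ _ (by simpa using hne))
            simp [hok, this]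
          · simp [hok]
        rwa [h4] at h3
      · have h3 := ih (L.filter fun c => !c.testBit (7 * e.1.val + e.2.val)) hc1 hT' (by
          intro c hcL a b hab
          rw [List.mem_filter] at hcL
          rcases hL c hcL.1 a b hab with h | h | h
          · exact Or.inl h
          · rw [List.mem_cons] at h
            rcases h with h | h
            · exfalso
              have h5 := hcL.2
              rw [← h] at h5
              simp only at h5
              rw [hab] at h5
              simp at h5
            · exact Or.inr (Or.inl h)
          · rw [List.mem_cons] at h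
            rcases h with h | h
            · left; rw [← h] at h2; exact h2
            · exact Or.inr (Or.inr h))
        have h4 : ((L.filter fun c => !c.testBit (7 * e.1.val + e.2.val)).filter
            fun c => decide (Ok T c)) = L.filter fun c => decide (Ok T c) := by
          rw [List.filter_filter]
          apply List.filter_congr
          intro c _
          by_cases hok : Ok T c
          · have : c.testBit (7 * e.1.val + e.2.val) = false := by
              by_contra hne
              exact h1 (hok _ _ (by simpa using hne))
            simp [hok, this]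
          · simp [hok]
        rwa [h4] at h3

/-- the pairs `{i, i+3}` and `{i, i+2}`. -/
def free : List (Fin 7 × Fin 7) :=
  [(0, 3), (1, 4), (2, 5), (3, 6), (4, 0), (5, 1), (6, 2),
   (0, 2), (1, 3), (2, 4), (3, 5), (4, 6), (5, 0), (6, 1)]

/-- the arcs `i + 1 → i` -/
def back : List (Fin 7 × Fin 7) :=
  [(1, 0), (2, 1), (3, 2), (4, 3), (5, 4), (6, 5), (0, 6)]

/-- the circuits that use no arc `i + 1 → i` -/
def start : List ℕ :=
  codes.filter fun c => back.all fun e => !c.testBit (7 * e.1.val + e.2.val)

theorem check_start : check 23 free start = true := by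
  decide +kernel

/-- every arc code of a circuit only uses arcs between distinct vertices -/
theorem codes_noLoop : codes.all (fun c => (List.finRange 7).all fun a =>
    !c.testBit (7 * a.val + a.val)) = true := by
  decide +kernel

lemma pairs_cover : ∀ a b : Fin 7, a ≠ b →
    (a, b) ∈ free ∨ (b, a) ∈ free ∨ (a, b) ∈ back ∨ (b, a) ∈ back := by
  decide

lemma back_eq : ∀ a b : Fin 7, (a, b) ∈ back → a = b + 1 := by
  decide

open Classical in
/-- No `7`-tournament has exactly `23` Hamiltonian circuits. -/
theorem numHam_ne (T : Fin 7 → Fin 7 → Prop) (hT : IsTournament T) : numHam T ≠ 23 := by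
  intro hcard
  -- a Hamiltonian circuit of `T`
  have hne : {A : Set (Fin 7 × Fin 7) | IsHamCircuit T A}.Nonempty := by
    apply Set.nonempty_of_ncard_ne_zero
    unfold numHam at hcard
    rw [hcard]; decide
  obtain ⟨_, ⟨(v : Fin 7 → Fin 7), hv, (hvT : ∀ i : Fin 7, T (v i) (v (i + 1))), _⟩⟩ := hne
  let e : Fin 7 ≃ Fin 7 := Equiv.ofBijective v hv
  let S : Fin 7 → Fin 7 → Prop := fun a b => T (e a) (e b)
  have hS : numHam S = 23 := by rw [← hcard]; exact numHam_relabel T e
  have hStour : IsTournament S :=
    ⟨fun u => hT.1 _, fun u w huw => hT.2 _ _ (fun h => huw (e.injective h))⟩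
  have hSarc : ∀ i : Fin 7, S i (i + 1) := hvT
  rw [numHam_eq_length] at hS
  have h1 : (codes.filter fun c => decide (Ok S c)) =
      start.filter fun c => decide (Ok S c) := by
    unfold start
    rw [List.filter_filter]
    apply List.filter_congr
    intro c _
    by_cases hok : Ok S c
    · have : (back.all fun e => !c.testBit (7 * e.1.val + e.2.val)) = true := by
        rw [List.all_eq_true]
        rintro ⟨a, b⟩ hab
        have h2 := back_eq a b hab
        have h3 : ¬ S a b := by
          rw [h2]
          have h4 := hSarc b
          have h5 : b ≠ b + 1 := by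
            intro h6
            rw [← h6] at h4
            exact hStour.1 _ h4
          rcases hStour.2 _ _ h5 with h | h
          · exact h.2
          · exact absurd h4 h.1
        have h4 : c.testBit (7 * a.val + b.val) = false := by
          by_contra hne
          exact h3 (hok _ _ (by simpa using hne))
        simp [h4]
      simp [hok, this]
    · simp [hok]
  rw [h1] at hS
  refine check_sound S 23 free start check_start ?_ ?_ hS
  · rintro ⟨a, b⟩ hab
    have hne : a ≠ b := by
      intro h
      subst h
      revert hab
      revert a
      decide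
    exact hStour.2 a b hne
  · intro c hc a b hab
    unfold start at hc
    rw [List.mem_filter, List.all_eq_true] at hc
    have hne : a ≠ b := by
      intro h
      subst h
      have h2 := codes_noLoop
      rw [List.all_eq_true] at h2
      have h3 := h2 c hc.1
      rw [List.all_eq_true] at h3
      have h4 := h3 a (List.mem_finRange a)
      rw [hab] at h4
      simp at h4
    rcases pairs_cover a b hne with h | h | h | h
    · exact Or.inr (Or.inl h)
    · exact Or.inr (Or.inr h)
    · have h2 := hc.2 _ h
      simp only at h2
      rw [hab] at h2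
      simp at h2
    · have h2 := back_eq b a h
      rw [h2]
      exact Or.inl (hSarc a)

/-- the Paley tournament on `7` vertices: `a → b` iff `b - a ∈ {1, 2, 4}`. -/
def paley (a b : Fin 7) : Prop := b - a = 1 ∨ b - a = 2 ∨ b - a = 4

instance (a b : Fin 7) : Decidable (paley a b) := by unfold paley; infer_instance

lemma paley_tournament : IsTournament paley := by
  constructor
  · decide
  · decide

instance (c : ℕ) : Decidable (Ok paley c) := by unfold Ok; infer_instance

theorem paley_count : (codes.filter fun c => decide (Ok paley c)).length = 24 := by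
  decide +kernel

theorem numHam_paley : numHam paley = 24 := by
  rw [numHam_eq_length, ← paley_count]
  congr 2
  funext c
  congr

theorem le_maxHam : 23 ≤ maxHam 7 := by
  have h1 : numHam paley ≤ maxHam 7 := by
    unfold maxHam
    apply le_csSup
    · apply Set.Finite.bddAbove
      have : {h : ℕ | ∃ T : Fin 7 → Fin 7 → Prop, IsTournament T ∧ numHam T = h} ⊆
          Set.range (fun T : Fin 7 → Fin 7 → Prop => numHam T) := by
        rintro h ⟨T, _, rfl⟩
        exact ⟨T, rfl⟩
      exact (Set.finite_range _).subset this
    · exact ⟨paley, paley_tournament, rfl⟩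
  rw [numHam_paley] at h1
  omega

/-- **Negated form of Q1.** For some `n ≥ 1` (namely `n = 7`) there is an `h` with
`0 ≤ h ≤ h_o(n)` (namely `h = 23`, while `h_o(7) ≥ 24`) such that no `n`-tournament has exactly `h`
distinct Hamiltonian circuits. -/
theorem result : ∃ n : ℕ, 1 ≤ n ∧ ∃ h : ℕ, h ≤ maxHam n ∧
    ∀ T : Fin n → Fin n → Prop, IsTournament T → numHam T ≠ h :=
  ⟨7, by norm_num, 23, le_maxHam, numHam_ne⟩

end Pool.Agent.Results.MP_9038fc_co.GapSeven
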